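import Pool.Agent.Y235.MO.Low
import Pool.Agent.Y235.MO.Up

/-!
# MP_7871bc_co: the order of magnitude of Moser's `S_3(n)`

`3/5 (n^(5/3) - n) ≤ S_3(n) ≤ 2^(-1/3) n^(5/3) + 3 n^(4/3) + 2 n` for all `n ≥ 1`. The lower bound
compares the moment of inertia of the union of the unit balls around the points with the one of a
ball of the same volume, the upper bound takes points of the face-centred cubic lattice.
-/

set_option autoImplicit false

namespace Pool.Agent.Results.MP_7871bc_co.MomentAsymptotics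

/-- three-dimensional Euclidean space -/
abbrev E3 : Type := EuclideanSpace ℝ (Fin 3)

/-- the points have mutual distances at least `2` -/
def TwoSeparated {n : ℕ} (P : Fin n → E3) : Prop := ∀ i j, i ≠ j → 2 ≤ dist (P i) (P j)

/-- all values of `∑ |O P_i|²` over `2`-separated `n`-point families `P` and points `O` -/
def momentSet (n : ℕ) : Set ℝ :=
  {t | ∃ (P : Fin n → E3) (O : E3), TwoSeparated P ∧ t = ∑ i, dist O (P i) ^ 2}

/-- Moser's `S_3(n)` -/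
noncomputable def S3 (n : ℕ) : ℝ := sInf (momentSet n)

/-- **The order of magnitude of `S_3(n)`.** For all `n ≥ 1`
`3/5 (n^(5/3) - n) ≤ S_3(n) ≤ 2^(-1/3) n^(5/3) + 3 n^(4/3) + 2 n`. -/
theorem result (n : ℕ) (hn : 1 ≤ n) :
    3 / 5 * ((n : ℝ) ^ ((5 : ℝ) / 3) - n) ≤ S3 n ∧
      S3 n ≤ (n : ℝ) ^ ((5 : ℝ) / 3) / 2 ^ ((1 : ℝ) / 3) + 3 * (n : ℝ) ^ ((4 : ℝ) / 3) + 2 * n := by
  have hn1 : (1 : ℝ) ≤ n := by exact_mod_cast hn
  have hn0 : (0 : ℝ) ≤ n := by linarith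
  set R : ℝ := (n : ℝ) ^ ((1 : ℝ) / 3) with hR
  have hR0 : 0 < R := Real.rpow_pos_of_pos (by linarith) _
  have hR3 : R ^ 3 = n := by
    rw [hR, ← Real.rpow_natCast, ← Real.rpow_mul hn0]
    norm_num
  have hR5 : (n : ℝ) ^ ((5 : ℝ) / 3) = R ^ 5 := by
    rw [hR, ← Real.rpow_natCast, ← Real.rpow_mul hn0]
    norm_num
  have hR4 : (n : ℝ) ^ ((4 : ℝ) / 3) = R ^ 4 := by
    rw [hR, ← Real.rpow_natCast, ← Real.rpow_mul hn0]
    norm_num
  set c : ℝ := (2 : ℝ) ^ ((1 : ℝ) / 3) with hc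
  have hc0 : 0 < c := Real.rpow_pos_of_pos (by norm_num) _
  have hc3 : c ^ 3 = 2 := by
    rw [hc, ← Real.rpow_natCast, ← Real.rpow_mul (by norm_num)]
    norm_num
  have hc2 : 4 / 3 ≤ c ^ 2 := by
    by_contra hcon
    rw [not_le] at hcon
    have h1 : (c ^ 2) ^ 3 < (4 / 3) ^ 3 := pow_lt_pow_left₀ hcon (by positivity) (by norm_num)
    have h2 : (c ^ 2) ^ 3 = 4 := by
      rw [← pow_mul, show 2 * 3 = 3 * 2 by norm_num, pow_mul, hc3]
      norm_num
    rw [h2] at h1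
    norm_num at h1
  -- the family for the upper bound
  set Q : ℝ := R / c ^ 2 with hQ
  have hQ0 : 0 < Q := by positivity
  have hQ3 : 4 * Q ^ 3 = n := by
    have h2 : (c ^ 2) ^ 3 = 4 := by
      rw [← pow_mul, show 2 * 3 = 3 * 2 by norm_num, pow_mul, hc3]
      norm_num
    rw [hQ, div_pow, h2, hR3]
    ring
  set k : ℕ := ⌈Q⌉₊ with hk
  have hk0 : 0 < k := Nat.ceil_pos.2 hQ0
  have hkQ : Q ≤ k := Nat.le_ceil Q
  have hkQ1 : (k : ℝ) < Q + 1 := Nat.ceil_lt_add_one hQ0.le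
  have hnk : n ≤ 4 * k ^ 3 := by
    have h1 : (n : ℝ) ≤ 4 * (k : ℝ) ^ 3 := by
      rw [← hQ3]
      have := pow_le_pow_left₀ hQ0.le hkQ 3
      linarith
    exact_mod_cast h1
  obtain ⟨P, hP, hPs⟩ := Pool.Agent.Y235.MO.upper n k hk0 hnk
  have hmem : ∑ i, dist (0 : E3) (P i) ^ 2 ∈ momentSet n := ⟨P, 0, hP, rfl⟩
  constructor
  · refine le_csInf ⟨_, hmem⟩ ?_
    rintro t ⟨P', O, hP', rfl⟩
    have h1 := Pool.Agent.Y235.MO.lower (fun i => P' i - O) (fun i j hij => by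
      rw [dist_sub_right]
      exact hP' i j hij) R hR0.le hR3
    rw [hR5, ← hR3]
    refine h1.trans (le_of_eq ?_)
    refine Finset.sum_congr rfl fun i _ => ?_
    rw [dist_comm, dist_eq_norm]
  · have hbdd : BddBelow (momentSet n) := by
      refine ⟨0, ?_⟩
      rintro t ⟨P', O, _, rfl⟩
      exact Finset.sum_nonneg fun i _ => sq_nonneg _
    refine (csInf_le hbdd hmem).trans ?_
    have h1 : ∑ i, dist (0 : E3) (P i) ^ 2 = ∑ i, ‖P i‖ ^ 2 := by
      refine Finset.sum_congr rfl fun i _ => ?_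
      rw [dist_comm, dist_zero_right]
    rw [h1]
    refine hPs.trans ?_
    have h2 : (4 * (k : ℝ) ^ 2 - 1) ≤ 4 * (Q + 1) ^ 2 - 1 := by
      have := pow_le_pow_left₀ (Nat.cast_nonneg k) hkQ1.le 2
      linarith
    have h3 : (n : ℝ) * (4 * (k : ℝ) ^ 2 - 1) / 2 ≤ n * (4 * (Q + 1) ^ 2 - 1) / 2 := by
      have := mul_le_mul_of_nonneg_left h2 hn0
      linarith
    refine h3.trans ?_
    rw [hR5, hR4]
    have h4 : (n : ℝ) * (4 * (Q + 1) ^ 2 - 1) / 2 =
        2 * (n * Q ^ 2) + 4 * (n * Q) + 3 / 2 * n := by ring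
    have h5 : 2 * ((n : ℝ) * Q ^ 2) = R ^ 5 / c := by
      rw [← hR3, hQ, div_pow, eq_div_iff hc0.ne']
      have h6 : (c ^ 2) ^ 2 = 2 * c := by
        rw [← hc3]
        ring
      rw [h6]
      field_simp
    have h7 : 4 * ((n : ℝ) * Q) ≤ 3 * R ^ 4 := by
      rw [← hR3, hQ]
      have h8 : 4 * (R ^ 3 * (R / c ^ 2)) = 4 * R ^ 4 / c ^ 2 := by ring
      rw [h8, div_le_iff₀ (by positivity)]
      have h9 : 0 < R ^ 4 := by positivity
      nlinarith
    rw [h4, h5]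
    linarith

end Pool.Agent.Results.MP_7871bc_co.MomentAsymptotics
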